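import Pool.Agent.U178.KD.Kob
import Pool.Agent.V1153.GH.Gen

/-!
# General intersections of hypersurfaces minus hypersurfaces
-/

set_option autoImplicit false

namespace Pool.Agent.U178.KD

open Filter Topology Metric Set MvPolynomial
open Pool.Agent.NH31.KR (fubini)
open Pool.Agent.V1153.UG (Bdd GmBdd)
open Pool.Agent.TH182.VD (CI)

variable {n q : ℕ}

/-- the exponents of degree `k` -/
abbrev Ex (n k : ℕ) : Type := {α : Fin (n + 1) →₀ ℕ // α.degree = k}

instance (n k : ℕ) : Finite (Ex n k) := by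
  have h1 : {m : Fin (n + 1) →₀ ℕ | m.degree = k}.Finite :=
    (Finsupp.finite_of_degree_le k).subset fun m hm => le_of_eq hm
  exact h1.to_subtype

noncomputable instance (n k : ℕ) : Fintype (Ex n k) := Fintype.ofFinite _

/-- the forms with given coefficients -/
noncomputable def form {d : Fin q → ℕ} (x : CI n d → ℂ) (i : Fin q) :
    MvPolynomial (Fin (n + 1)) ℂ := ∑ m : Ex n (d i), monomial m.1 (x ⟨i, m⟩)

theorem form_hom {d : Fin q → ℕ} (x : CI n d → ℂ) (i : Fin q) : (form x i).IsHomogeneous (d i) :=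
  IsHomogeneous.sum _ _ _ fun β _ => isHomogeneous_monomial _ β.2

theorem form_coeff {d : Fin q → ℕ} {F : Fin q → MvPolynomial (Fin (n + 1)) ℂ}
    (hF : ∀ i, (F i).IsHomogeneous (d i)) (i : Fin q) :
    form (fun x : CI n d => coeff x.2.1 (F x.1)) i = F i := by
  classical
  ext m
  unfold form
  rw [coeff_sum]
  simp only [coeff_monomial]
  by_cases hm : m.degree = d i
  · rw [Finset.sum_eq_single (⟨m, hm⟩ : Ex n (d i))]
    · simp
    · intro b _ hb
      rw [if_neg fun h => hb (Subtype.ext h)]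
    · intro h
      exact absurd (Finset.mem_univ _) h
  · rw [(hF i).coeff_eq_zero hm]
    refine Finset.sum_eq_zero fun b _ => ?_
    rw [if_neg]
    rintro rfl
    exact hm b.2

theorem continuous_form {d : Fin q → ℕ} (i : Fin q) :
    Continuous fun p : (CI n d → ℂ) × (Fin (n + 1) → ℂ) => eval p.2 (form p.1 i) := by
  have h1 : (fun p : (CI n d → ℂ) × (Fin (n + 1) → ℂ) => eval p.2 (form p.1 i)) =
      fun p => ∑ β : Ex n (d i), p.1 ⟨i, β⟩ * ∏ j, p.2 j ^ β.1 j := by
    funext p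
    unfold form
    rw [map_sum]
    refine Finset.sum_congr rfl fun β _ => ?_
    rw [eval_monomial, Finsupp.prod_fintype _ _ fun i => pow_zero _]
  rw [h1]
  refine continuous_finsetSum _ fun β _ => ?_
  refine Continuous.mul ((continuous_apply _).comp continuous_fst) ?_
  exact continuous_finsetProd _ fun i _ => ((continuous_apply i).comp continuous_snd).pow _

theorem map_compl (Z : Finset (Fin q)) (J : Finset {i : Fin q // i ∉ Z}) :
    (Jᶜ).map (Function.Embedding.subtype fun i => i ∉ Z) =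
      Finset.univ \ (Z ∪ J.map (Function.Embedding.subtype fun i => i ∉ Z)) := by
  ext i
  simp only [Finset.mem_map, Finset.mem_compl, Function.Embedding.subtype_apply, Subtype.exists,
    exists_and_right, exists_eq_right, Finset.mem_sdiff, Finset.mem_univ, true_and,
    Finset.mem_union, not_or, not_exists]
  constructor
  · rintro ⟨h1, h2⟩
    exact ⟨h1, fun _ => h2⟩
  · rintro ⟨h1, h2⟩
    exact ⟨h1, h2 h1⟩

theorem prod_compl (Z : Finset (Fin q)) (J : Finset {i : Fin q // i ∉ Z})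
    (F : Fin q → MvPolynomial (Fin (n + 1)) ℂ) : ∏ i ∈ Jᶜ, F i.1 =
      ∏ i ∈ Finset.univ \ (Z ∪ J.map (Function.Embedding.subtype fun i => i ∉ Z)), F i := by
  rw [← map_compl, Finset.prod_map]
  rfl

theorem prod_all (Z : Finset (Fin q)) (F : Fin q → MvPolynomial (Fin (n + 1)) ℂ) :
    ∏ i : {i : Fin q // i ∉ Z}, F i.1 = ∏ i ∈ Finset.univ \ Z, F i := by
  have h1 := prod_compl Z ∅ F
  rwa [Finset.compl_empty, Finset.map_empty, Finset.union_empty] at h1

theorem set_union (Z : Finset (Fin q)) (J : Finset {i : Fin q // i ∉ Z})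
    (F : Fin q → MvPolynomial (Fin (n + 1)) ℂ) :
    (Set.range fun i : {i : Fin q // i ∈ Z} => F i.1) ∪
        (fun i : {i : Fin q // i ∉ Z} => F i.1) '' J =
      {G | ∃ i ∈ Z ∪ J.map (Function.Embedding.subtype fun i => i ∉ Z), G = F i} := by
  ext G
  constructor
  · rintro (⟨i, rfl⟩ | ⟨i, hi, rfl⟩)
    · exact ⟨i.1, Finset.mem_union_left _ i.2, rfl⟩
    · exact ⟨i.1, Finset.mem_union_right _ (Finset.mem_map.2 ⟨i, hi, rfl⟩), rfl⟩
  · rintro ⟨i, hi, rfl⟩
    rcases Finset.mem_union.1 hi with h | h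
    · exact Or.inl ⟨⟨i, h⟩, rfl⟩
    · obtain ⟨j, hj, hji⟩ := Finset.mem_map.1 h
      exact Or.inr ⟨j, hj, congrArg F hji⟩

/-- **General intersections of hypersurfaces minus hypersurfaces**: the bound for the derivatives. -/
theorem general_kob (d : Fin q → ℕ) (Z : Finset (Fin q)) (hZ : 2 * n + 1 ≤ ∑ i, d i + Z.card)
    (s r e δ : ℕ) : ∃ Φ : MvPolynomial (CI n d) ℂ, Φ ≠ 0 ∧
      ∀ 𝒦 : Set (CI n d → ℂ), IsCompact 𝒦 → (∀ x ∈ 𝒦, eval x Φ ≠ 0) → ∃ C : ℝ,
        ∀ F : Fin q → MvPolynomial (Fin (n + 1)) ℂ, (∀ i, (F i).IsHomogeneous (d i)) →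
          (fun x : CI n d => coeff x.2.1 (F x.1)) ∈ 𝒦 → ∀ (U : Set ℂ) (f : ℂ → Fin (n + 1) → ℂ),
            OnDom {G | ∃ i ∈ Z, G = F i} (∏ i ∈ Finset.univ \ Z, F i) U f →
            Bdd U (∏ i ∈ Finset.univ \ Z, F i) s r e δ f →
            ∀ (p : ℂ) (R : ℝ), 0 < R → ball p R ⊆ U → R * fubini (f p) (deriv f p) ≤ C := by
  classical
  obtain ⟨N, hN⟩ := kob n (∑ i, d i) s r e δ
  have h1 : ∀ Z' : Finset (Fin q), ∃ Φ : MvPolynomial (CI n d) ℂ, Φ ≠ 0 ∧ (Z ⊆ Z' →
      ∀ F : Fin q → MvPolynomial (Fin (n + 1)) ℂ, (∀ i, (F i).IsHomogeneous (d i)) →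
        eval (fun x : CI n d => coeff x.2.1 (F x.1)) Φ ≠ 0 →
        ∀ P, ¬ GmBdd (Ideal.span {G | ∃ i ∈ Z', G = F i}) (∏ i ∈ Finset.univ \ Z', F i) N P) := by
    intro Z'
    by_cases h : Z ⊆ Z'
    · obtain ⟨Φ, h2, h3⟩ := Pool.Agent.V1153.GH.general (n := n) d Z'
        (hZ.trans (Nat.add_le_add_left (Finset.card_le_card h) _)) N
      exact ⟨Φ, h2, fun _ => h3⟩
    · exact ⟨1, one_ne_zero, fun h4 => absurd h4 h⟩
  choose Φ hΦ0 hΦ using h1
  refine ⟨∏ Z', Φ Z', Finset.prod_ne_zero_iff.2 fun Z' _ => hΦ0 Z', fun 𝒦 h𝒦 hne => ?_⟩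
  obtain ⟨C, -, hC⟩ := hN (CI n d → ℂ) 𝒦 h𝒦 {i : Fin q // i ∈ Z} {i : Fin q // i ∉ Z}
    (fun x i => form x i.1) (fun x i => form x i.1) (fun i => d i.1) (fun i => d i.1)
    (fun x i => form_hom x i.1)
    (fun i => Finset.single_le_sum (fun _ _ => Nat.zero_le _) (Finset.mem_univ i.1))
    (fun x i => form_hom x i.1) (by
      have h2 := Finset.sum_map (Finset.univ : Finset {i : Fin q // i ∉ Z})
        (Function.Embedding.subtype fun i => i ∉ Z) d
      exact h2.symm.le.trans (Finset.sum_le_sum_of_subset (Finset.subset_univ _))) (fun i => continuous_form i.1) (fun i => continuous_form i.1) (by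
      intro x hx J P hP
      rw [set_union, prod_compl] at hP
      refine hΦ (Z ∪ J.map (Function.Embedding.subtype fun i => i ∉ Z)) Finset.subset_union_left
        (form x) (form_hom x) ?_ P hP
      have h2 : (fun y : CI n d => coeff y.2.1 (form x y.1)) = x := by
        funext y
        obtain ⟨i, m, hm⟩ := y
        unfold form
        change coeff m (∑ m : Ex n (d i), monomial m.1 (x ⟨i, m⟩)) = _
        rw [coeff_sum]
        simp only [coeff_monomial]
        rw [Finset.sum_eq_single (⟨m, hm⟩ : Ex n (d i))]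
        · simp
        · intro b _ hb
          rw [if_neg fun h => hb (Subtype.ext h)]
        · intro h
          exact absurd (Finset.mem_univ _) h
      rw [h2]
      have h3 := hne x hx
      rw [map_prod] at h3
      exact Finset.prod_ne_zero_iff.1 h3 _ (Finset.mem_univ _))
  refine ⟨C, fun F hF hx U f hf hb p R hR hpU => ?_⟩
  have h4 : ∀ i, form (fun x : CI n d => coeff x.2.1 (F x.1)) i = F i := form_coeff hF
  have h5 := hC _ hx U f
  simp only [h4] at h5
  rw [prod_all] at h5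
  refine h5 ⟨hf.opn, hf.con, hf.diff, hf.ne, ?_, hf.off⟩ hb p R hR hpU
  rintro z hz _ ⟨i, rfl⟩
  exact hf.mem z hz _ ⟨i.1, i.2, rfl⟩

end Pool.Agent.U178.KD
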