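import Pool.Agent.U178.KD.Rel
import Pool.Agent.NH31.KR
import Pool.Agent.Y190.OP.Zf

/-!
# Discs of bounded complexity: the bound for the derivative at the centre
-/

set_option autoImplicit false

namespace Pool.Agent.U178.KD

open Filter Topology Metric Set MvPolynomial
open Pool.Agent.NH29.GK
open Pool.Agent.NH31.KR (fubini fubini_le fubini_add)
open Pool.Agent.V1153.UG (mons AlgPair Bdd Arc Curve GmBdd DegLe fam_none alg_curve pair_scale
  eval_homog)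

variable {n : ℕ}

/-- a holomorphic map, with the homogeneous coordinates `f`, from the domain `U` to the
complement of `Q = 0` in the closed set given by the forms in `E` -/
structure OnDom (E : Set (MvPolynomial (Fin (n + 1)) ℂ)) (Q : MvPolynomial (Fin (n + 1)) ℂ)
    (U : Set ℂ) (f : ℂ → Fin (n + 1) → ℂ) : Prop where
  opn : IsOpen U
  con : IsPreconnected U
  diff : DifferentiableOn ℂ f U
  ne : ∀ z ∈ U, f z ≠ 0
  mem : ∀ z ∈ U, ∀ F ∈ E, eval (f z) F = 0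
  off : ∀ z ∈ U, eval (f z) Q ≠ 0

theorem span_zero {E : Set (MvPolynomial (Fin (n + 1)) ℂ)} {v : Fin (n + 1) → ℂ}
    (h : ∀ F ∈ E, eval v F = 0) : ∀ F ∈ Ideal.span E, eval v F = 0 := by
  intro F hF
  have h1 : Ideal.span E ≤ RingHom.ker (eval v) := by
    rw [Ideal.span_le]
    intro F hF
    exact (RingHom.mem_ker).2 (h F hF)
  exact (RingHom.mem_ker).1 (h1 hF)

/-- maps of bounded complexity are algebraic -/
theorem disc_rel (n D s r e d : ℕ) : ∃ N : ℕ, ∀ (E : Set (MvPolynomial (Fin (n + 1)) ℂ))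
    (Q : MvPolynomial (Fin (n + 1)) ℂ), DegLe D E Q → (∀ P, ¬ GmBdd (Ideal.span E) Q N P) →
      ∀ (U : Set ℂ) (f : ℂ → Fin (n + 1) → ℂ), OnDom E Q U f → Bdd U Q s r e d f →
        ∀ j l, ∃ m ≤ N, AlgPair m U (fun z => f z j) fun z => f z l := by
  obtain ⟨N, hN⟩ := fam_none n D s r e d
  refine ⟨N, fun E Q hE hno U f hf hb j l => ?_⟩
  obtain ⟨-, -, h3⟩ := hN E Q hE hno
  obtain ⟨V, q, y, g, hVo, ⟨z1, hz1⟩, hVU, hsys, hg, hcx, hcu⟩ := hb
  obtain ⟨ζ, hζ, ε, hε, hball, hA⟩ := Bdd.arc (I := Ideal.span E) hf.opn hf.ne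
    (fun z hz F hF _ => span_zero (hf.mem z hz) F hF) hVo ⟨z1, hz1, hVU hz1⟩ hsys hg hcx hcu
  obtain ⟨m, hm, hp⟩ := h3 _ _ hA j l
  obtain ⟨c, hc, hcz⟩ := pair_scale (fun t ht => hg t (hball ht).1) hp
  refine ⟨m, hm, c, hc, fun z hz => ?_⟩
  have hA : ∀ j, AnalyticOnNhd ℂ (fun w => f w j) U := fun j =>
    ((differentiableOn_pi.1 hf.diff) j).analyticOnNhd hf.opn
  have h4 : AnalyticOnNhd ℂ (fun z => ∑ k, c k * mons m z (f z j) (f z l) k) U := by
    intro z hz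
    refine Finset.analyticAt_fun_sum _ fun k _ => analyticAt_const.fun_mul ?_
    exact ((analyticAt_id.fun_pow _).fun_mul ((hA j z hz).fun_pow _)).fun_mul
      ((hA l z hz).fun_pow _)
  refine h4.eqOn_zero_of_preconnected_of_eventuallyEq_zero hf.con hζ.2 ?_ hz
  filter_upwards [Metric.ball_mem_nhds ζ hε] with t ht
  exact hcz t ht

theorem isCompact_PM : IsCompact (PM n) := by
  have h1 : PM n = Phi '' sphere (0 : Fin (n + 1) → ℂ) 1 := by
    ext A
    constructor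
    · rintro ⟨u, hu, rfl⟩
      have hn : (‖u‖ : ℂ) ≠ 0 := by exact_mod_cast (norm_pos_iff.2 hu).ne'
      refine ⟨(‖u‖ : ℂ)⁻¹ • u, mem_sphere_zero_iff_norm.2 ?_, Phi_smul (inv_ne_zero hn) u⟩
      rw [norm_smul, norm_inv, Complex.norm_real, norm_norm]
      exact inv_mul_cancel₀ (norm_pos_iff.2 hu).ne'
    · rintro ⟨u, hu, rfl⟩
      have hu1 : ‖u‖ = 1 := mem_sphere_zero_iff_norm.1 hu
      refine ⟨u, ?_, rfl⟩
      rintro rfl
      rw [norm_zero] at hu1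
      exact zero_ne_one hu1
  rw [h1]
  refine (isCompact_sphere _ _).image_of_continuousOn fun u hu => ?_
  have hu1 : ‖u‖ = 1 := mem_sphere_zero_iff_norm.1 hu
  refine (continuousAt_Phi ?_).continuousWithinAt
  rintro rfl
  rw [norm_zero] at hu1
  exact zero_ne_one hu1

/-- zero-free coordinates -/
theorem exists_coord {H : ℂ → Mat n} (hH : HolP univ H) : ∃ G : ℂ → Fin (n + 1) → ℂ,
    Differentiable ℂ G ∧ (∀ z, G z ≠ 0) ∧ ∀ z, H z = Phi (G z) := by
  have h1 : Pool.Agent.Y190.OP.HolP (N := n + 1) univ H := hH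
  obtain ⟨G, h2, h3, h4⟩ := Pool.Agent.Y190.OP.zero_free h1
  exact ⟨G, h2, h3, h4⟩

theorem gmBdd_le {I : Ideal (MvPolynomial (Fin (n + 1)) ℂ)} {Q : MvPolynomial (Fin (n + 1)) ℂ}
    {N M : ℕ} {P : Fin (n + 1) → Polynomial ℂ} (h : GmBdd I Q N P) (hNM : N ≤ M) :
    GmBdd I Q M P := ⟨fun j => (h.deg j).trans hNM, h.mem, h.off, h.nc⟩

/-- the derivative at a point in terms of the projection matrices -/
theorem fubini_fderiv {R : ℝ} (hR : 0 < R) {f : ℂ → Fin (n + 1) → ℂ} {p : ℂ}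
    (hf : DifferentiableAt ℂ f p) (hf0 : f p ≠ 0) :
    R * fubini (f p) (deriv f p) ≤
      2 * (n + 1) ^ 2 * ‖fderiv ℝ (fun z : ℂ => Phi (f (p + R * z))) 0‖ := by
  have h0 : p + (R : ℂ) * 0 = p := by rw [mul_zero, add_zero]
  have hfd : HasDerivAt f (deriv f p) p := hf.hasDerivAt
  have hg : HasDerivAt (fun z : ℂ => f (p + R * z)) ((R : ℂ) • deriv f p) 0 := by
    have h1 : HasDerivAt (fun z : ℂ => p + (R : ℂ) * z) (R : ℂ) 0 := by
      simpa using ((hasDerivAt_id (0 : ℂ)).const_mul (R : ℂ)).const_add p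
    have h2 : HasDerivAt f (deriv f p) (p + (R : ℂ) * 0) := by rw [h0]; exact hfd
    exact h2.scomp (0 : ℂ) h1
  have hfr : HasFDerivAt (fun z : ℂ => f (p + R * z))
      ((ContinuousLinearMap.toSpanSingleton ℂ ((R : ℂ) • deriv f p)).restrictScalars ℝ)
      0 := hg.hasFDerivAt.restrictScalars ℝ
  have hd : DifferentiableAt ℝ (Phi (M := n)) (f (p + R * 0)) := by
    rw [h0]
    exact (contDiffAt_Phi hf0).differentiableAt (by norm_num)
  have h2 : fderiv ℝ (fun z : ℂ => Phi (f (p + R * z))) 0 1 =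
      fderiv ℝ Phi (f p) ((R : ℂ) • deriv f p) := by
    have h3 := (hd.hasFDerivAt.comp (0 : ℂ) hfr).fderiv
    have h4 : fderiv ℝ (fun z : ℂ => Phi (f (p + R * z))) 0 = _ := h3
    rw [h4, h0]
    simp
  have h3 : ‖fderiv ℝ Phi (f p) ((R : ℂ) • deriv f p)‖ ≤
      ‖fderiv ℝ (fun z : ℂ => Phi (f (p + R * z))) 0‖ := by
    rw [← h2]
    refine ((fderiv ℝ (fun z : ℂ => Phi (f (p + R * z))) 0).le_opNorm 1).trans ?_
    rw [norm_one, mul_one]
  have h5 := fubini_add (x := f p) (w := deriv f p) hR.le 0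
  rw [zero_smul, add_zero] at h5
  rw [← h5]
  exact (fubini_le hf0).trans (mul_le_mul_of_nonneg_left h3 (by positivity))

/-- **The bound for the derivative of maps of bounded complexity**, for compact families. -/
theorem kob (n D s r e d : ℕ) : ∃ N : ℕ, ∀ (T : Type) [TopologicalSpace T] (𝒦 : Set T),
    IsCompact 𝒦 → ∀ (α β : Type) [Fintype β] [DecidableEq β]
      (F : T → α → MvPolynomial (Fin (n + 1)) ℂ) (B : T → β → MvPolynomial (Fin (n + 1)) ℂ)
      (a : α → ℕ) (b : β → ℕ), (∀ t i, (F t i).IsHomogeneous (a i)) → (∀ i, a i ≤ D) →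
      (∀ t i, (B t i).IsHomogeneous (b i)) → ∑ i, b i ≤ D →
      (∀ i, Continuous fun p : T × (Fin (n + 1) → ℂ) => eval p.2 (F p.1 i)) →
      (∀ i, Continuous fun p : T × (Fin (n + 1) → ℂ) => eval p.2 (B p.1 i)) →
      (∀ t ∈ 𝒦, ∀ J : Finset β, ∀ P,
        ¬ GmBdd (Ideal.span (Set.range (F t) ∪ B t '' J)) (∏ i ∈ Jᶜ, B t i) N P) →
      ∃ C : ℝ, 0 < C ∧ ∀ t ∈ 𝒦, ∀ (U : Set ℂ) (f : ℂ → Fin (n + 1) → ℂ),
        OnDom (Set.range (F t)) (∏ i, B t i) U f → Bdd U (∏ i, B t i) s r e d f →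
          ∀ (p : ℂ) (R : ℝ), 0 < R → ball p R ⊆ U → R * fubini (f p) (deriv f p) ≤ C := by
  classical
  obtain ⟨N0, hN0⟩ := disc_rel n D s r e d
  refine ⟨(n + 2) * N0, ?_⟩
  intro T _ 𝒦 h𝒦 α β _ _ F B a b hF ha hB hb hFc hBc hno
  have hle : N0 ≤ (n + 2) * N0 := Nat.le_mul_of_pos_left _ (by omega)
  have hrel : ∀ t ∈ 𝒦, ∀ (U : Set ℂ) (f : ℂ → Fin (n + 1) → ℂ),
      OnDom (Set.range (F t)) (∏ i, B t i) U f → Bdd U (∏ i, B t i) s r e d f →
        ∀ j l, ∃ m ≤ N0, AlgPair m U (fun z => f z j) fun z => f z l := by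
    intro t ht U f hf hbd
    refine hN0 (Set.range (F t)) (∏ i, B t i) ⟨?_, ?_⟩ (fun P hP => ?_) U f hf hbd
    · rintro _ ⟨i, rfl⟩
      exact ⟨a i, ha i, hF t i⟩
    · exact ⟨∑ i, b i, hb, IsHomogeneous.prod _ _ _ fun i _ => hB t i⟩
    · have h1 := hno t ht ∅ P
      rw [Finset.compl_empty, Finset.coe_empty, Set.image_empty, Set.union_empty] at h1
      exact h1 (gmBdd_le hP hle)
  by_contra hcon
  push Not at hcon
  have h1 : ∀ i : ℕ, ∃ t ∈ 𝒦, ∃ (U : Set ℂ) (f : ℂ → Fin (n + 1) → ℂ),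
      OnDom (Set.range (F t)) (∏ i, B t i) U f ∧ Bdd U (∏ i, B t i) s r e d f ∧
      ∃ h : ℂ → Mat n, HolP (ball 0 (i + 1 : ℝ)) h ∧
      (∀ z ∈ ball (0 : ℂ) (i + 1 : ℝ), h z ∈ PM n) ∧
      (∀ z ∈ ball (0 : ℂ) ((i + 1 : ℝ) / 2), ‖fderiv ℝ h z‖ ≤ 2) ∧ ‖fderiv ℝ h 0‖ = 1 ∧
      ∃ (a' ρ : ℂ), ρ ≠ 0 ∧ ∀ z ∈ ball (0 : ℂ) (i + 1 : ℝ),
        a' + ρ * z ∈ U ∧ h z = Phi (f (a' + ρ * z)) := by
    intro i
    obtain ⟨t, ht, U, f, hf, hbd, p, R, hR, hpU, hbig⟩ :=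
      hcon (2 * (n + 1) ^ 2 * (2 * (i + 1))) (by positivity)
    refine ⟨t, ht, U, f, hf, hbd, ?_⟩
    have hpR : p ∈ U := hpU (mem_ball_self hR)
    have hin : ∀ z ∈ ball (0 : ℂ) 1, p + (R : ℂ) * z ∈ U := by
      intro z hz
      apply hpU
      rw [mem_ball_zero_iff] at hz
      rw [mem_ball_iff_norm, add_sub_cancel_left, norm_mul, Complex.norm_real,
        Real.norm_of_nonneg hR.le]
      calc R * ‖z‖ < R * 1 := mul_lt_mul_of_pos_left hz hR
        _ = R := mul_one R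
    have hhol : HolP (ball 0 1) fun z : ℂ => Phi (f (p + R * z)) := by
      intro z hz
      refine ⟨ball 0 1, fun z => f (p + R * z), isOpen_ball, hz, ?_,
        fun w hw => ⟨hf.ne _ (hin w hw), rfl⟩⟩
      exact hf.diff.comp (((differentiable_id.const_mul (R : ℂ)).const_add p).differentiableOn)
        fun w hw => hin w hw
    have h2 := fubini_fderiv hR (hf.diff.differentiableAt (hf.opn.mem_nhds hpR)) (hf.ne p hpR)
    have h3 : 2 * ((i : ℝ) + 1) < ‖fderiv ℝ (fun z : ℂ => Phi (f (p + R * z))) 0‖ := by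
      have h4 : (0 : ℝ) < 2 * ((n : ℝ) + 1) ^ 2 := by positivity
      exact lt_of_mul_lt_mul_left (lt_of_lt_of_le hbig h2) h4.le
    obtain ⟨h, h4, h5, h6, h7, a', ρ, hρ, h8, h9⟩ := rescaleA (S := PM n) (M := (i : ℝ) + 1)
      (by positivity) hhol (fun z hz => ⟨_, hf.ne _ (hin z hz), rfl⟩) h3
    refine ⟨h, h4, h5, h6, h7, p + (R : ℂ) * a', (R : ℂ) * (ρ : ℂ), ?_, fun z hz => ?_⟩
    · exact mul_ne_zero (by exact_mod_cast hR.ne') (by exact_mod_cast hρ.ne')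
    · have h10 : p + (R : ℂ) * a' + (R : ℂ) * (ρ : ℂ) * z = p + (R : ℂ) * aff a' ρ z := by
        unfold aff
        ring
      rw [h10]
      refine ⟨hin _ (h9 z hz), ?_⟩
      rw [h8]
  choose t ht U f hf hbd h hH hHS hHd hH0 a' ρ hρ hval using h1
  obtain ⟨hcof, H, hCC, hev, hHol, hHmem, hHne⟩ := limit_disc isCompact_PM subset_rfl hH hHS hHd hH0
  set 𝓤 : Ultrafilter ℕ := hyperfilter ℕ with h𝓤
  obtain ⟨t₀, ht₀, htlim⟩ : ∃ t₀ ∈ 𝒦, Tendsto t (𝓤 : Filter ℕ) (𝓝 t₀) := by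
    have h2 : ∀ᶠ n in (𝓤 : Filter ℕ), t n ∈ 𝒦 := Filter.Eventually.of_forall ht
    have h3 := h𝒦.ultrafilter_le_nhds (𝓤.map t) (by
      rw [le_principal_iff]; exact h2)
    exact h3
  have hpar : ∀ {P : T → MvPolynomial (Fin (n + 1)) ℂ}
      (_ : Continuous fun p : T × (Fin (n + 1) → ℂ) => MvPolynomial.eval p.2 (P p.1))
      (u : Fin (n + 1) → ℂ),
      Tendsto (fun p : ℕ × (Fin (n + 1) → ℂ) => MvPolynomial.eval p.2 (P (t p.1)))
        ((𝓤 : Filter ℕ) ×ˢ 𝓝 u) (𝓝 (MvPolynomial.eval u (P t₀))) := by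
    intro P hPc u
    have h3 : Tendsto (fun p : T × (Fin (n + 1) → ℂ) => MvPolynomial.eval p.2 (P p.1))
        (𝓝 (t₀, u)) (𝓝 (MvPolynomial.eval u (P t₀))) := hPc.tendsto (t₀, u)
    have h4 : Tendsto (fun p : ℕ × (Fin (n + 1) → ℂ) => (t p.1, p.2)) ((𝓤 : Filter ℕ) ×ˢ 𝓝 u)
        (𝓝 (t₀, u)) := by
      rw [nhds_prod_eq]
      exact Tendsto.prodMk (Tendsto.comp htlim tendsto_fst) tendsto_snd
    have h5 := Tendsto.comp h3 h4
    exact h5
  -- zero-free coordinates of the limit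
  obtain ⟨G, hG, hG0, hGH⟩ := exists_coord hHol
  -- the equations
  have hFz : ∀ i z, eval (G z) (F t₀ i) = 0 := by
    intro i z
    rw [← isZero_iff (hF t₀ i) (hG0 z), ← hGH z]
    obtain ⟨k, hk⟩ := PM.exists_diag (hHmem z)
    rw [isZero_iff' (hF t₀ i) (hHmem z) hk]
    have hz1 := (hCC (‖z‖ + 1) (by positivity)).pointwise (z := z)
      (mem_ball_zero_iff.2 (by linarith))
    have h2 : Tendsto (fun i => chart k (h i z)) (𝓤 : Filter ℕ) (𝓝 (chart k (H z))) :=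
      Tendsto.comp (continuousAt_chart hk) hz1
    have h3 : Tendsto (fun i : ℕ => (i, chart k (h i z))) (𝓤 : Filter ℕ)
        ((𝓤 : Filter ℕ) ×ˢ 𝓝 (chart k (H z))) := Tendsto.prodMk tendsto_id h2
    have h4 := Tendsto.comp (hpar (P := fun s => F s i) (hFc i) (chart k (H z))) h3
    refine tendsto_nhds_unique h4 (tendsto_const_nhds.congr' ?_)
    have hcont : Continuous fun A : Mat n => A k k := continuous_apply_apply k k
    have h5 : ∀ᶠ i in (𝓤 : Filter ℕ), h i z k k ≠ 0 :=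
      (Tendsto.comp (hcont.tendsto _) hz1).eventually_ne hk
    filter_upwards [h5, hcof ‖z‖] with p hp hp2
    have hzb : z ∈ ball (0 : ℂ) ((p : ℝ) + 1) := mem_ball_zero_iff.2 (by linarith)
    obtain ⟨h6, h7⟩ := hval p z hzb
    have h8 : IsZero (F (t p) i) (h p z) := by
      rw [h7, isZero_iff (hF _ i) ((hf p).ne _ h6)]
      exact (hf p).mem _ h6 _ ⟨i, rfl⟩
    rw [isZero_iff' (hF _ i) (hHS p z hzb) hp] at h8
    exact h8.symm
  -- the boundary
  have hBz : ∀ i, (∀ z, IsZero (B t₀ i) (H z)) ∨ ∀ z, ¬ IsZero (B t₀ i) (H z) := by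
    intro i
    refine dichQ (Q := fun p => B (t p) i) hCC hev hHmem (fun p => hB _ i) (hB t₀ i)
      (hpar (P := fun s => B s i) (hBc i)) ?_
    intro R' _
    filter_upwards [hcof R'] with p hp z hz h0
    have hzb : z ∈ ball (0 : ℂ) ((p : ℝ) + 1) := ball_subset_ball (by linarith) hz
    obtain ⟨h6, h7⟩ := hval p z hzb
    rw [h7, isZero_iff (hB _ i) ((hf p).ne _ h6)] at h0
    apply (hf p).off _ h6
    rw [map_prod]
    exact Finset.prod_eq_zero (Finset.mem_univ i) h0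
  -- the algebraic equations
  have hal : ∀ j l, ∃ m ≤ N0, ∃ c : Fin ((m + 1) * (m + 1)) → ℂ, c ≠ 0 ∧
      ∀ z, ∑ k, c k * mons m z (G z j) (G z l) k = 0 := by
    intro j l
    obtain ⟨m, hm, c, hc, hcz⟩ := rel_limit (j := j) (l := l) (m0 := N0) hCC (by
      intro p
      obtain ⟨m, hm, c, hc, hcz⟩ := hrel (t p) (ht p) (U p) (f p) (hf p) (hbd p) j l
      obtain ⟨c', hc', h2⟩ := rel_aff hc (a' p) (hρ p)
      refine ⟨m, hm, c', hc', fun z hz => ?_⟩
      obtain ⟨h6, h7⟩ := hval p z hz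
      rw [h7, relM_Phi ((hf p).ne _ h6)]
      exact h2 z _ _ (hcz _ h6)) hcof
    refine ⟨m, hm, c, hc, fun z => ?_⟩
    have h2 := hcz z
    rw [hGH z, relM_Phi (hG0 z)] at h2
    exact h2
  -- the curve
  set J : Finset β := Finset.univ.filter fun i => ∀ z, IsZero (B t₀ i) (H z) with hJ
  have hcurve : Curve (Ideal.span (Set.range (F t₀) ∪ B t₀ '' J)) (∏ i ∈ Jᶜ, B t₀ i) G := by
    refine ⟨fun j => differentiable_pi.1 hG j, hG0, fun z K hK _ => ?_, fun z => ?_, ?_⟩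
    · refine span_zero ?_ K hK
      rintro K (⟨i, rfl⟩ | ⟨i, hi, rfl⟩)
      · exact hFz i z
      · have h2 := (Finset.mem_filter.1 (Finset.mem_coe.1 hi)).2 z
        rwa [hGH z, isZero_iff (hB _ i) (hG0 z)] at h2
    · rw [map_prod]
      refine Finset.prod_ne_zero_iff.2 fun i hi => ?_
      have h2 : ¬ ∀ z, IsZero (B t₀ i) (H z) := by
        intro h3
        exact (Finset.mem_compl.1 hi) (Finset.mem_filter.2 ⟨Finset.mem_univ _, h3⟩)
      have h3 := ((hBz i).resolve_left h2) z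
      rwa [hGH z, isZero_iff (hB _ i) (hG0 z)] at h3
    · by_contra hc
      push Not at hc
      apply hHne
      intro z
      rw [hGH z, hGH 0]
      obtain ⟨k, hk⟩ := Function.ne_iff.1 (hG0 0)
      have hk' : G 0 k ≠ 0 := hk
      have hzk : G z k ≠ 0 := by
        intro h2
        apply hG0 z
        funext j
        have h3 := hc z 0 j k
        rw [h2, zero_mul] at h3
        exact (mul_eq_zero.1 h3).resolve_right hk'
      have h2 : G z = (G z k / G 0 k) • G 0 := by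
        funext j
        rw [Pi.smul_apply, smul_eq_mul, div_mul_eq_mul_div, eq_div_iff hk']
        exact hc z 0 j k
      rw [h2, Phi_smul (div_ne_zero hzk hk')]
  obtain ⟨l, hl⟩ := Function.ne_iff.1 (hG0 0)
  have hQh : (∏ i ∈ Jᶜ, B t₀ i).IsHomogeneous (∑ i ∈ Jᶜ, b i) :=
    IsHomogeneous.prod _ _ _ fun i _ => hB t₀ i
  obtain ⟨P, hP, -⟩ := alg_curve hQh hcurve hl (m0 := N0) (fun j => by
    obtain ⟨m, hm, c, hc, hcz⟩ := hal j l
    exact ⟨m, hm, c, hc, Eventually.of_forall hcz⟩)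
  exact hno t₀ ht₀ J P hP

end Pool.Agent.U178.KD
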