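import Pool.Agent.NH29.GK.Brody

/-!
Brody's reparametrization (after `Pool.Agent.U582.OB.Green`), limits of discs, and Hurwitz' theorem
for forms which vary.
-/

set_option autoImplicit false

namespace Pool.Agent.U178.KD

open Filter Topology Metric Set
open Pool.Agent.NH29.GK

variable {N : ℕ}

/-- Brody's reparametrization -/
theorem rescaleA {S : Set (Mat N)} {Ψ : ℂ → Mat N} {M : ℝ} (hM : 0 < M)
    (hΨ : HolP (ball 0 1) Ψ) (hS : ∀ z ∈ ball (0 : ℂ) 1, Ψ z ∈ S)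
    (hbig : 2 * M < ‖fderiv ℝ Ψ 0‖) :
    ∃ h : ℂ → Mat N, HolP (ball 0 M) h ∧ (∀ z ∈ ball (0 : ℂ) M, h z ∈ S) ∧
      (∀ z ∈ ball (0 : ℂ) (M / 2), ‖fderiv ℝ h z‖ ≤ 2) ∧ ‖fderiv ℝ h 0‖ = 1 ∧
      ∃ (a : ℂ) (ρ : ℝ), 0 < ρ ∧ h = (fun z => Ψ (aff a ρ z)) ∧
        ∀ z ∈ ball (0 : ℂ) M, aff a ρ z ∈ ball (0 : ℂ) 1 := by
  set g : ℂ → Mat N := fun z => Ψ (aff 0 (1 / 2) z) with hg
  have hsub : ball (0 : ℂ) 2 ⊆ aff 0 (1 / 2) ⁻¹' ball (0 : ℂ) 1 := by
    intro z hz
    rw [mem_preimage, mem_ball_zero_iff]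
    rw [mem_ball_zero_iff] at hz
    unfold aff
    rw [zero_add, norm_mul, Complex.norm_real, Real.norm_of_nonneg (by norm_num)]
    linarith
  have hgH : HolP (ball 0 2) g := (hΨ.aff 0 (1 / 2)).mono hsub
  have hgS : ∀ z ∈ ball (0 : ℂ) 2, g z ∈ S := fun z hz => hS _ (hsub hz)
  have hg0 : ‖fderiv ℝ g 0‖ = 1 / 2 * ‖fderiv ℝ Ψ 0‖ := by
    have h1 : aff 0 (1 / 2) 0 = 0 := by simp [aff]
    have h2 := norm_fderiv_aff (Ψ := Ψ) (a := 0) (ρ := 1 / 2) (by norm_num) (z := 0) (by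
      rw [h1]; exact hΨ.differentiableAt (mem_ball_self one_pos))
    rw [h1] at h2
    exact h2
  have h12 : closedBall (0 : ℂ) 1 ⊆ ball 0 2 := closedBall_subset_ball (by norm_num)
  have hcont : ContinuousOn (fun z => (1 - ‖z‖) * ‖fderiv ℝ g z‖) (closedBall (0 : ℂ) 1) := by
    intro z hz
    apply ContinuousAt.continuousWithinAt
    exact (continuousAt_const.sub continuousAt_id.norm).mul
      (hgH.continuousAt_fderiv (h12 hz)).norm
  obtain ⟨z0, hz0, hmax⟩ := (isCompact_closedBall (0 : ℂ) 1).exists_isMaxOn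
    ⟨0, mem_closedBall_self zero_le_one⟩ hcont
  have hmax' : ∀ z ∈ closedBall (0 : ℂ) 1, (1 - ‖z‖) * ‖fderiv ℝ g z‖ ≤
      (1 - ‖z0‖) * ‖fderiv ℝ g z0‖ := fun z hz => hmax hz
  set D := ‖fderiv ℝ g z0‖ with hD
  have h0 : M < (1 - ‖z0‖) * D := by
    have := hmax' 0 (mem_closedBall_self zero_le_one)
    rw [norm_zero, sub_zero, one_mul, hg0] at this
    linarith
  have hz0n : ‖z0‖ ≤ 1 := mem_closedBall_zero_iff.1 hz0
  have hDnn : 0 ≤ D := norm_nonneg _
  have hz0lt : 0 < 1 - ‖z0‖ := by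
    by_contra hcon
    push Not at hcon
    have := mul_nonpos_of_nonpos_of_nonneg hcon hDnn
    linarith
  have hDpos : 0 < D := by
    by_contra hcon
    push Not at hcon
    have : D = 0 := le_antisymm hcon hDnn
    rw [this] at h0
    linarith
  set ρ := 1 / D with hρ
  have hρpos : 0 < ρ := by positivity
  have hρD : ρ * D = 1 := by rw [hρ]; field_simp
  have hρM : ρ * M < 1 - ‖z0‖ := by
    have := mul_lt_mul_of_pos_left h0 hρpos
    calc ρ * M < ρ * ((1 - ‖z0‖) * D) := this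
      _ = (1 - ‖z0‖) * (ρ * D) := by ring
      _ = 1 - ‖z0‖ := by rw [hρD, mul_one]
  have hnorm : ∀ z : ℂ, ‖aff z0 ρ z‖ ≤ ‖z0‖ + ρ * ‖z‖ := by
    intro z
    unfold aff
    refine (norm_add_le _ _).trans ?_
    rw [norm_mul, Complex.norm_real, Real.norm_of_nonneg hρpos.le]
  have hball : ball (0 : ℂ) M ⊆ aff z0 ρ ⁻¹' ball (0 : ℂ) 2 := by
    intro z hz
    rw [mem_ball_zero_iff] at hz
    rw [mem_preimage, mem_ball_zero_iff]
    have := hnorm z
    have h1 : ρ * ‖z‖ < ρ * M := mul_lt_mul_of_pos_left hz hρpos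
    linarith
  have hderiv : ∀ z ∈ ball (0 : ℂ) M, ‖fderiv ℝ (fun z => g (aff z0 ρ z)) z‖ =
      ρ * ‖fderiv ℝ g (aff z0 ρ z)‖ := fun z hz =>
    norm_fderiv_aff hρpos.le (hgH.differentiableAt (hball hz))
  refine ⟨fun z => g (aff z0 ρ z), (hgH.aff z0 ρ).mono hball, fun z hz => hgS _ (hball hz),
    fun z hz => ?_, ?_, aff 0 (1 / 2) z0, 1 / 2 * ρ, by positivity, ?_, fun z hz => ?_⟩
  · have hz' : ‖z‖ < M / 2 := mem_ball_zero_iff.1 hz
    rw [hderiv z (ball_subset_ball (by linarith) hz)]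
    have h1 := hnorm z
    have h2 : ρ * ‖z‖ < ρ * (M / 2) := mul_lt_mul_of_pos_left hz' hρpos
    have h3 : (1 - ‖z0‖) / 2 ≤ 1 - ‖aff z0 ρ z‖ := by linarith
    have h4 := hmax' (aff z0 ρ z) (mem_closedBall_zero_iff.2 (by linarith))
    have h5 : (1 - ‖z0‖) / 2 * ‖fderiv ℝ g (aff z0 ρ z)‖ ≤ (1 - ‖z0‖) * D :=
      (mul_le_mul_of_nonneg_right h3 (norm_nonneg _)).trans h4
    have h6 : ‖fderiv ℝ g (aff z0 ρ z)‖ ≤ 2 * D := by
      by_contra hcon
      push Not at hcon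
      have := mul_lt_mul_of_pos_left hcon (half_pos hz0lt)
      linarith
    calc ρ * ‖fderiv ℝ g (aff z0 ρ z)‖ ≤ ρ * (2 * D) := mul_le_mul_of_nonneg_left h6 hρpos.le
      _ = 2 * (ρ * D) := by ring
      _ = 2 := by rw [hρD, mul_one]
  · rw [hderiv 0 (mem_ball_self hM)]
    have : aff z0 ρ 0 = z0 := by simp [aff]
    rw [this]
    exact hρD
  · have h7 : ∀ z, aff 0 (1 / 2) (aff z0 ρ z) = aff (aff 0 (1 / 2) z0) (1 / 2 * ρ) z := by
      intro z
      unfold aff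
      push_cast
      ring
    funext z
    rw [← h7]
  · have h7 : aff 0 (1 / 2) (aff z0 ρ z) = aff (aff 0 (1 / 2) z0) (1 / 2 * ρ) z := by
      unfold aff
      push_cast
      ring
    rw [← h7]
    exact hsub (hball hz)

/-- limits of discs of bounded derivative -/
theorem limit_disc {S : Set (Mat N)} (hS : IsCompact S) (hPM : S ⊆ PM N) {h : ℕ → ℂ → Mat N}
    (hH : ∀ n : ℕ, HolP (ball 0 (n + 1 : ℝ)) (h n))
    (hHS : ∀ n : ℕ, ∀ z ∈ ball (0 : ℂ) (n + 1 : ℝ), h n z ∈ S)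
    (hHd : ∀ n : ℕ, ∀ z ∈ ball (0 : ℂ) ((n + 1 : ℝ) / 2), ‖fderiv ℝ (h n) z‖ ≤ 2)
    (hH0 : ∀ n : ℕ, ‖fderiv ℝ (h n) 0‖ = 1) :
    (∀ R : ℝ, ∀ᶠ n : ℕ in (hyperfilter ℕ : Filter ℕ), R ≤ n) ∧ ∃ H : ℂ → Mat N,
      (∀ R : ℝ, 0 < R → CConv (hyperfilter ℕ : Filter ℕ) (ball 0 R) h H) ∧
      (∀ R : ℝ, 0 < R → ∀ᶠ n in (hyperfilter ℕ : Filter ℕ), HolP (ball 0 R) (h n)) ∧
      HolP univ H ∧ (∀ z, H z ∈ S) ∧ ¬ ∀ z, H z = H 0 := by
  set 𝓤 : Ultrafilter ℕ := hyperfilter ℕ with h𝓤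
  have hcof : ∀ R : ℝ, ∀ᶠ n : ℕ in (𝓤 : Filter ℕ), R ≤ n := by
    intro R
    have h2 : ∀ᶠ n : ℕ in atTop, R ≤ n := by
      filter_upwards [eventually_ge_atTop ⌈R⌉₊] with n hn
      exact (Nat.le_ceil R).trans (by exact_mod_cast hn)
    have h3 : (𝓤 : Filter ℕ) ≤ atTop := by
      rw [← Nat.cofinite_eq_atTop]
      exact hyperfilter_le_cofinite
    exact h3 h2
  refine ⟨hcof, ?_⟩
  have hlim : ∀ z : ℂ, ∃ y ∈ S, Tendsto (fun n => h n z) 𝓤 (𝓝 y) := by
    intro z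
    have h2 : ∀ᶠ n in (𝓤 : Filter ℕ), h n z ∈ S := by
      filter_upwards [hcof ‖z‖] with n hn
      exact hHS n z (mem_ball_zero_iff.2 (by linarith))
    have h3 := hS.ultrafilter_le_nhds (𝓤.map (fun n => h n z)) (by
      rw [le_principal_iff]; exact h2)
    exact h3
  choose H hHmem hHt using hlim
  have hCC : ∀ R : ℝ, 0 < R → CConv (𝓤 : Filter ℕ) (ball 0 R) h H := by
    intro R hR z hz
    rw [Metric.tendsto_nhds]
    intro ε hε
    have h2 := Metric.tendsto_nhds.1 (hHt z) (ε / 2) (by positivity)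
    have h3 := hcof (2 * R)
    rw [eventually_prod_iff]
    refine ⟨_, h2.and h3, fun w => w ∈ ball (0 : ℂ) R ∧ dist w z < ε / 4, ?_, ?_⟩
    · have h4 : ∀ᶠ w in 𝓝 z, w ∈ ball (0 : ℂ) R := isOpen_ball.mem_nhds hz
      have h5 : ∀ᶠ w in 𝓝 z, dist w z < ε / 4 := ball_mem_nhds z (by positivity)
      exact h4.and h5
    · rintro n ⟨hn1, hn2⟩ w ⟨hw1, hw2⟩
      have h6 : ‖h n w - h n z‖ ≤ 2 * ‖w - z‖ := by
        have hsub : ball (0 : ℂ) R ⊆ ball (0 : ℂ) ((n + 1 : ℝ) / 2) :=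
          ball_subset_ball (by linarith)
        have hsub2 : ball (0 : ℂ) R ⊆ ball (0 : ℂ) (n + 1 : ℝ) :=
          ball_subset_ball (by linarith)
        exact (convex_ball (0 : ℂ) R).norm_image_sub_le_of_norm_fderiv_le
          (fun x hx => (hH n).differentiableAt (hsub2 hx))
          (fun x hx => hHd n x (hsub hx)) hz hw1
      calc dist (h n w) (H z) ≤ dist (h n w) (h n z) + dist (h n z) (H z) := dist_triangle _ _ _
        _ < ε / 2 + ε / 2 := by
            refine add_lt_add ?_ hn1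
            rw [dist_eq_norm]
            rw [dist_eq_norm] at hw2
            linarith
        _ = ε := by ring
  have hev : ∀ R : ℝ, 0 < R → ∀ᶠ n in (𝓤 : Filter ℕ), HolP (ball 0 R) (h n) := by
    intro R _
    filter_upwards [hcof R] with n hn
    exact (hH n).mono (ball_subset_ball (by linarith))
  have hl := fun (R : ℝ) (hR : 0 < R) => holP_limit isOpen_ball (hCC R hR) (hev R hR)
    (fun z _ => hPM (hHmem z))
  have hHol : HolP univ H := fun z _ =>
    (hl (‖z‖ + 1) (by positivity)).1 z (mem_ball_zero_iff.2 (by linarith))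
  refine ⟨H, hCC, hev, hHol, hHmem, fun hc => ?_⟩
  have hc1 : fderiv ℝ H 0 = 0 := by
    have : H = fun _ => H 0 := funext fun z => hc z
    rw [this]; simp
  have ht1 := (hl 1 one_pos).2 0 (mem_ball_self one_pos)
  rw [hc1] at ht1
  have e1 := (ht1.norm).eventually_lt_const (u := 1) (by simp)
  obtain ⟨n, hn1⟩ := e1.exists
  rw [hH0 n] at hn1
  exact lt_irrefl _ hn1

/-- Hurwitz' theorem for the zeros of varying forms on a limit of holomorphic maps -/
theorem dichQ {ι : Type} {l : Filter ι} [l.NeBot] {h : ι → ℂ → Mat N} {H : ℂ → Mat N}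
    (hCC : ∀ R : ℝ, 0 < R → CConv l (ball 0 R) h H)
    (hhol : ∀ R : ℝ, 0 < R → ∀ᶠ n in l, HolP (ball 0 R) (h n)) (hH : ∀ z, H z ∈ PM N)
    {Q : ι → MvPolynomial (Fin (N + 1)) ℂ} {P : MvPolynomial (Fin (N + 1)) ℂ} {e : ℕ}
    (hQ : ∀ n, (Q n).IsHomogeneous e) (hP : P.IsHomogeneous e)
    (hQP : ∀ u : Fin (N + 1) → ℂ, Tendsto (fun p : ι × (Fin (N + 1) → ℂ) =>
      MvPolynomial.eval p.2 (Q p.1)) (l ×ˢ 𝓝 u) (𝓝 (MvPolynomial.eval u P)))
    (hne : ∀ R : ℝ, 0 < R → ∀ᶠ n in l, ∀ z ∈ ball (0 : ℂ) R, ¬ IsZero (Q n) (h n z)) :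
    (∀ z, IsZero P (H z)) ∨ ∀ z, ¬ IsZero P (H z) := by
  classical
  have main : ∀ z : ℂ, ∃ V : Set ℂ, IsOpen V ∧ z ∈ V ∧ ∃ f : ℂ → ℂ, ContinuousAt f z ∧
      (∀ w ∈ V, (IsZero P (H w) ↔ f w = 0)) ∧ (f z = 0 → ∀ᶠ w in 𝓝 z, f w = 0) := by
    intro z
    set R : ℝ := ‖z‖ + 1 with hR
    have hRpos : 0 < R := by positivity
    have hzR : z ∈ ball (0 : ℂ) R := mem_ball_zero_iff.2 (by linarith)
    obtain ⟨i, hi⟩ := PM.exists_diag (hH z)
    have hcont : Continuous fun A : Mat N => A i i := continuous_apply_apply i i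
    have hC := hCC R hRpos
    have h1 : ∀ᶠ p : ι × ℂ in l ×ˢ 𝓝 z, h p.1 p.2 i i ≠ 0 :=
      ((hcont.continuousAt.tendsto).comp (hC z hzR)).eventually_ne hi
    rw [eventually_prod_iff] at h1
    obtain ⟨pa, hpa, pb, hpb, hab⟩ := h1
    have h2 : ∀ᶠ w in 𝓝 z, H w i i ≠ 0 :=
      ((hcont.continuousAt).comp (hC.continuousAt isOpen_ball hzR)).eventually_ne hi
    obtain ⟨V, hVsub, hV, hzV⟩ := _root_.mem_nhds_iff.1
      ((hpb.and h2).and (isOpen_ball.mem_nhds hzR))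
    have hVU : V ⊆ ball (0 : ℂ) R := fun w hw => (hVsub hw).2
    have hψV : ∀ w ∈ V, H w i i ≠ 0 := fun w hw => (hVsub hw).1.2
    have hφV : ∀ᶠ n in l, ∀ w ∈ V, h n w i i ≠ 0 := by
      filter_upwards [hpa] with n hn w hw
      exact hab hn (hVsub hw).1.1
    have hCV : CConv l V (fun n w => MvPolynomial.eval (chart i (h n w)) (Q n))
        (fun w => MvPolynomial.eval (chart i (H w)) P) := by
      intro w hw
      have h3 : Tendsto (fun p : ι × ℂ => chart i (h p.1 p.2)) (l ×ˢ 𝓝 w)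
          (𝓝 (chart i (H w))) := by
        have h31 := hC w (hVU hw)
        have h32 := continuousAt_chart (hψV w hw)
        exact Tendsto.comp h32 h31
      have h4 : Tendsto (fun p : ι × ℂ => (p.1, chart i (h p.1 p.2))) (l ×ˢ 𝓝 w)
          (l ×ˢ 𝓝 (chart i (H w))) := Tendsto.prodMk tendsto_fst h3
      have h5 := Tendsto.comp (hQP (chart i (H w))) h4
      exact h5
    set good : ι → Prop := fun n => HolP (ball 0 R) (h n) ∧ (∀ w ∈ V, h n w i i ≠ 0) ∧
      ∀ z ∈ ball (0 : ℂ) R, ¬ IsZero (Q n) (h n z) with hgood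
    have hgev : ∀ᶠ n in l, good n := by
      filter_upwards [hhol R hRpos, hφV, hne R hRpos] with n a b c
      exact ⟨a, b, c⟩
    set F : ι → ℂ → ℂ := fun n w => if good n then MvPolynomial.eval (chart i (h n w)) (Q n) else 1
      with hF
    have hCF : CConv l V F (fun w => MvPolynomial.eval (chart i (H w)) P) := by
      intro w hw
      refine (hCV w hw).congr' ?_
      have h3 : ∀ᶠ p : ι × ℂ in l ×ˢ 𝓝 w, good p.1 := hgev.prod_inl _
      filter_upwards [h3] with p hp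
      rw [hF]
      simp only [if_pos hp]
    have hFd : ∀ n, DifferentiableOn ℂ (F n) V := by
      intro n
      by_cases hn : good n
      · have h4 : F n = fun w => MvPolynomial.eval (chart i (h n w)) (Q n) := by
          funext w
          rw [hF]
          simp only [if_pos hn]
        rw [h4]
        intro w hw
        have h5 : DifferentiableAt ℂ (fun w => chart i (h n w)) w :=
          hn.1.diff_chart (hVU hw) (hn.2.1 w hw)
        have h6 : DifferentiableAt ℂ (fun w => ∑ β ∈ (Q n).support,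
            MvPolynomial.coeff β (Q n) * ∏ j, chart i (h n w) j ^ β j) w := by
          refine DifferentiableAt.fun_sum fun β _ => ?_
          refine (differentiableAt_const _).mul ?_
          refine DifferentiableAt.fun_finsetProd fun j _ => ?_
          exact ((differentiableAt_pi.1 h5) j).pow _
        have h7 : (fun w => MvPolynomial.eval (chart i (h n w)) (Q n)) =
            fun w => ∑ β ∈ (Q n).support,
              MvPolynomial.coeff β (Q n) * ∏ j, chart i (h n w) j ^ β j := by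
          funext w
          rw [MvPolynomial.eval_eq']
        rw [h7]
        exact h6.differentiableWithinAt
      · have h4 : F n = fun _ => 1 := by
          funext w
          rw [hF]
          simp only [if_neg hn]
        rw [h4]
        exact differentiableOn_const _
    have hFne : ∀ n, ∀ w ∈ V, F n w ≠ 0 := by
      intro n w hw
      rw [hF]
      by_cases hn : good n
      · simp only [if_pos hn]
        intro h0
        exact hn.2.2 w (hVU hw) ((isZero_iff' (hQ n) (hn.1.mem_PM (hVU hw)) (hn.2.1 w hw)).2 h0)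
      · simp only [if_neg hn]
        exact one_ne_zero
    refine ⟨V, hV, hzV, fun w => MvPolynomial.eval (chart i (H w)) P,
      hCF.continuousAt hV hzV, fun w hw => isZero_iff' hP (hH w) (hψV w hw), fun h0 => ?_⟩
    exact Pool.Agent.Helper202.Riemann.hurwitz hV hFd (hCF.locUnif hV) hFne hzV h0
  have hopen : IsOpen {z | IsZero P (H z)} := by
    rw [isOpen_iff_mem_nhds]
    intro z hz
    obtain ⟨V, hV, hzV, f, -, hf, h0⟩ := main z
    filter_upwards [hV.mem_nhds hzV, h0 ((hf z hzV).1 hz)] with w hw hfw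
    exact (hf w hw).2 hfw
  have hclosed : IsClosed {z | IsZero P (H z)} := by
    rw [← isOpen_compl_iff, isOpen_iff_mem_nhds]
    intro z hz
    obtain ⟨V, hV, hzV, f, hc, hf, -⟩ := main z
    have hz' : ¬ IsZero P (H z) := hz
    have h1 : f z ≠ 0 := fun h0 => hz' ((hf z hzV).2 h0)
    filter_upwards [hV.mem_nhds hzV, hc.eventually_ne h1] with w hw hfw h2
    exact hfw ((hf w hw).1 h2)
  rcases isClopen_iff.1 ⟨hclosed, hopen⟩ with h1 | h1
  · right
    intro z hz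
    have : z ∈ ({z | IsZero P (H z)} : Set ℂ) := hz
    rw [h1] at this
    exact this
  · left
    intro z
    have : z ∈ ({z | IsZero P (H z)} : Set ℂ) := by rw [h1]; exact mem_univ z
    exact this


end Pool.Agent.U178.KD
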