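import Pool.Agent.U178.KD.Lim
import Pool.Agent.V1153.UG.UnfC

/-!
Algebraic equations for pairs of coordinates: affine changes of the parameter and limits.
-/

set_option autoImplicit false

namespace Pool.Agent.U178.KD

open Filter Topology Metric Set
open Pool.Agent.NH29.GK
open Pool.Agent.V1153.UG (mons AlgPair pair_poly)

variable {n : ℕ}

theorem mons_scale (m : ℕ) (z s a b : ℂ) (k : Fin ((m + 1) * (m + 1))) :
    mons m z (s * a) (s * b) k = s ^ m * mons m z a b k := by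
  unfold mons
  rw [mul_pow, mul_pow]
  have h9 : s ^ m = s ^ ((finProdFinEquiv.symm k).2 : ℕ) *
      s ^ (m - ((finProdFinEquiv.symm k).2 : ℕ)) := by
    rw [← pow_add]
    congr 1
    have := (finProdFinEquiv.symm k).2.2
    omega
  rw [h9]
  ring

theorem sum_scale (m : ℕ) (c : Fin ((m + 1) * (m + 1)) → ℂ) (z s a b : ℂ) :
    ∑ k, c k * mons m z (s * a) (s * b) k = s ^ m * ∑ k, c k * mons m z a b k := by
  rw [Finset.mul_sum]
  refine Finset.sum_congr rfl fun k _ => ?_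
  rw [mons_scale]
  ring

/-- the equation for the `j`-th and the `l`-th coordinates, for the projection matrix -/
def RelM (m : ℕ) (c : Fin ((m + 1) * (m + 1)) → ℂ) (z : ℂ) (j l : Fin (n + 1)) (A : Mat n) : Prop :=
  ∀ k, ∑ i, c i * mons m z (A j k) (A l k) i = 0

theorem relM_Phi {m : ℕ} {c : Fin ((m + 1) * (m + 1)) → ℂ} {z : ℂ} {j l : Fin (n + 1)}
    {u : Fin (n + 1) → ℂ} (hu : u ≠ 0) :
    RelM m c z j l (Phi u) ↔ ∑ i, c i * mons m z (u j) (u l) i = 0 := by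
  have h1 : ∀ k, ∑ i, c i * mons m z (Phi u j k) (Phi u l k) i =
      ((starRingEnd ℂ) (u k) / nsq u) ^ m * ∑ i, c i * mons m z (u j) (u l) i := by
    intro k
    rw [← sum_scale]
    have h2 : ∀ j, Phi u j k = (starRingEnd ℂ) (u k) / nsq u * u j := by
      intro j
      unfold Phi
      ring
    rw [h2, h2]
  constructor
  · intro h
    obtain ⟨k, hk⟩ := Function.ne_iff.1 hu
    have h2 := h k
    rw [h1] at h2
    refine (mul_eq_zero.1 h2).resolve_left (pow_ne_zero _ (div_ne_zero ?_ (nsq_ne hu)))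
    intro h3
    exact hk ((map_eq_zero (starRingEnd ℂ)).1 h3)
  · intro h k
    rw [h1, h, mul_zero]

/-- from polynomials to the coefficients of an equation -/
theorem poly_pair {m : ℕ} (p : Fin (m + 1) → Polynomial ℂ) (hp : ∃ β, p β ≠ 0)
    (hd : ∀ β, (p β).natDegree ≤ m) : ∃ c : Fin ((m + 1) * (m + 1)) → ℂ, c ≠ 0 ∧
      ∀ z a b, ∑ k, c k * mons m z a b k =
        ∑ β : Fin (m + 1), (p β).eval z * a ^ (β : ℕ) * b ^ (m - β) := by
  classical
  refine ⟨fun k => (p (finProdFinEquiv.symm k).2).coeff (finProdFinEquiv.symm k).1, ?_, ?_⟩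
  · intro h0
    obtain ⟨β, hβ⟩ := hp
    apply hβ
    ext i
    rw [Polynomial.coeff_zero]
    by_cases hi : i ≤ m
    · have h1 := congrFun h0 (finProdFinEquiv (⟨i, by omega⟩, β))
      simpa using h1
    · exact Polynomial.coeff_eq_zero_of_natDegree_lt (lt_of_le_of_lt (hd β) (not_le.1 hi))
  · intro z a b
    rw [← Equiv.sum_comp finProdFinEquiv, Fintype.sum_prod_type_right]
    refine Finset.sum_congr rfl fun β _ => ?_
    rw [Polynomial.eval_eq_sum_range' (Nat.lt_succ_of_le (hd β)), Finset.sum_mul, Finset.sum_mul,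
      ← Fin.sum_univ_eq_sum_range (fun i => (p β).coeff i * z ^ i * a ^ (β : ℕ) * b ^ (m - β))]
    refine Finset.sum_congr rfl fun α _ => ?_
    unfold mons
    simp only [Equiv.symm_apply_apply]
    ring

/-- affine changes of the parameter -/
theorem rel_aff {m : ℕ} {c : Fin ((m + 1) * (m + 1)) → ℂ} (hc : c ≠ 0) (a : ℂ) {ρ : ℂ}
    (hρ : ρ ≠ 0) : ∃ c' : Fin ((m + 1) * (m + 1)) → ℂ, ‖c'‖ = 1 ∧ ∀ z x y,
      ∑ k, c k * mons m (a + ρ * z) x y k = 0 → ∑ k, c' k * mons m z x y k = 0 := by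
  classical
  obtain ⟨p, ⟨β, hβ⟩, hp2, hp3⟩ := pair_poly c hc
  set q : Polynomial ℂ := Polynomial.C a + Polynomial.C ρ * Polynomial.X with hq
  have hqd : q.natDegree = 1 := by
    rw [hq, add_comm]
    exact Polynomial.natDegree_linear hρ
  have hne : (p β).comp q ≠ 0 := by
    intro h0
    rcases Polynomial.comp_eq_zero_iff.1 h0 with h1 | ⟨-, h1⟩
    · exact hβ h1
    · rw [h1, Polynomial.natDegree_C] at hqd
      exact absurd hqd (by norm_num)
  obtain ⟨c', hc', h⟩ := poly_pair (m := m) (fun β => (p β).comp q) ⟨β, hne⟩ (by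
    intro β
    rw [Polynomial.natDegree_comp, hqd, mul_one]
    exact hp2 β)
  have hn : ‖c'‖ ≠ 0 := norm_ne_zero_iff.2 hc'
  refine ⟨(‖c'‖ : ℂ)⁻¹ • c', ?_, fun z x y h0 => ?_⟩
  · rw [norm_smul, norm_inv, Complex.norm_real, norm_norm]
    exact inv_mul_cancel₀ hn
  · have h1 : ∑ k, ((‖c'‖ : ℂ)⁻¹ • c') k * mons m z x y k =
        (‖c'‖ : ℂ)⁻¹ * ∑ k, c' k * mons m z x y k := by
      rw [Finset.mul_sum]
      refine Finset.sum_congr rfl fun k _ => ?_
      rw [Pi.smul_apply, smul_eq_mul]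
      ring
    rw [h1, h]
    rw [hp3] at h0
    have h2 : ∀ β, ((p β).comp q).eval z = (p β).eval (a + ρ * z) := by
      intro β
      rw [Polynomial.eval_comp, hq]
      simp
    simp only [h2]
    rw [h0, mul_zero]

/-- limits of equations -/
theorem rel_limit {h : ℕ → ℂ → Mat n} {H : ℂ → Mat n}
    (hCC : ∀ R : ℝ, 0 < R → CConv (hyperfilter ℕ : Filter ℕ) (ball 0 R) h H) {m0 : ℕ}
    {j l : Fin (n + 1)}
    (hr : ∀ i : ℕ, ∃ m ≤ m0, ∃ c : Fin ((m + 1) * (m + 1)) → ℂ, ‖c‖ = 1 ∧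
      ∀ z ∈ ball (0 : ℂ) (i + 1 : ℝ), RelM m c z j l (h i z))
    (hcof : ∀ R : ℝ, ∀ᶠ n : ℕ in (hyperfilter ℕ : Filter ℕ), R ≤ n) :
    ∃ m ≤ m0, ∃ c : Fin ((m + 1) * (m + 1)) → ℂ, c ≠ 0 ∧ ∀ z, RelM m c z j l (H z) := by
  classical
  have h1 : ∀ᶠ i : ℕ in (hyperfilter ℕ : Filter ℕ), ∃ m ∈ {m | m ≤ m0},
      ∃ c : Fin ((m + 1) * (m + 1)) → ℂ, ‖c‖ = 1 ∧
        ∀ z ∈ ball (0 : ℂ) (i + 1 : ℝ), RelM m c z j l (h i z) :=
    Eventually.of_forall fun i => by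
      obtain ⟨m, hm, h2⟩ := hr i
      exact ⟨m, hm, h2⟩
  rw [Ultrafilter.eventually_exists_mem_iff (Set.finite_le_nat m0)] at h1
  obtain ⟨m, hm, h2⟩ := h1
  refine ⟨m, hm, ?_⟩
  have h3 : ∀ i : ℕ, ∃ c : Fin ((m + 1) * (m + 1)) → ℂ,
      (∃ c : Fin ((m + 1) * (m + 1)) → ℂ, ‖c‖ = 1 ∧
        ∀ z ∈ ball (0 : ℂ) (i + 1 : ℝ), RelM m c z j l (h i z)) →
      ‖c‖ = 1 ∧ ∀ z ∈ ball (0 : ℂ) (i + 1 : ℝ), RelM m c z j l (h i z) := by
    intro i
    by_cases h4 : ∃ c : Fin ((m + 1) * (m + 1)) → ℂ, ‖c‖ = 1 ∧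
        ∀ z ∈ ball (0 : ℂ) (i + 1 : ℝ), RelM m c z j l (h i z)
    · obtain ⟨c, hc⟩ := h4
      exact ⟨c, fun _ => hc⟩
    · exact ⟨0, fun h5 => absurd h5 h4⟩
  choose c hc using h3
  have h4 : ∀ᶠ i in (hyperfilter ℕ : Filter ℕ), c i ∈ sphere (0 : Fin ((m + 1) * (m + 1)) → ℂ) 1 :=
    h2.mono fun i hi => mem_sphere_zero_iff_norm.2 (hc i hi).1
  obtain ⟨v, hv, hvt⟩ := (isCompact_sphere (0 : Fin ((m + 1) * (m + 1)) → ℂ)
    1).ultrafilter_le_nhds ((hyperfilter ℕ).map c) (by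
      rw [le_principal_iff]
      exact h4)
  have hvt' : Tendsto c (hyperfilter ℕ : Filter ℕ) (𝓝 v) := hvt
  have hv1 : ‖v‖ = 1 := mem_sphere_zero_iff_norm.1 hv
  refine ⟨v, ?_, fun z k => ?_⟩
  · rintro rfl
    rw [norm_zero] at hv1
    exact zero_ne_one hv1
  · have hpos : 0 < ‖z‖ + 1 := by positivity
    have h5 := (hCC (‖z‖ + 1) hpos).pointwise (z := z) (mem_ball_zero_iff.2 (by linarith))
    have h6 : Tendsto (fun i => (c i, h i z)) (hyperfilter ℕ : Filter ℕ) (𝓝 (v, H z)) :=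
      hvt'.prodMk_nhds h5
    have h7 : Continuous fun p : (Fin ((m + 1) * (m + 1)) → ℂ) × Mat n =>
        ∑ i, p.1 i * mons m z (p.2 j k) (p.2 l k) i := by
      unfold mons
      fun_prop
    have h8 := (h7.tendsto (v, H z)).comp h6
    refine tendsto_nhds_unique h8 (tendsto_const_nhds.congr' ?_)
    filter_upwards [h2, hcof ‖z‖] with i hi hi2
    exact ((hc i hi).2 z (mem_ball_zero_iff.2 (by linarith)) k).symm

end Pool.Agent.U178.KD
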